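import Mathlib
import Pool.Agent.H.MP_93dabc_an.A

open MeasureTheory Set

namespace Pool.Agent.Results.MP_93dabc_an.No

theorem result : ∃ (Ω : Type) (_ : MeasurableSpace Ω) (μ : Measure Ω),
    IsProbabilityMeasure μ ∧ μ.IsComplete ∧
    ∃ (X : Type) (_ : NormedAddCommGroup X) (_ : NormedSpace ℝ X) (_ : CompleteSpace X)
      (F : Ω → Set X),
      (∀ t, (F t).Nonempty ∧ Convex ℝ (F t) ∧ IsClosed (F t) ∧ Bornology.IsBounded (F t)) ∧
      (∀ φ : X →L[ℝ] ℝ, φ ≠ 0 → ∀ a : ℝ, MeasurableSet {t | (F t ∩ {x | a < φ x}).Nonempty}) ∧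
      ∀ f : Ω → X, (∀ t, f t ∈ F t) → ¬ ∀ φ : X →L[ℝ] ℝ, Measurable fun t => φ (f t) := by
  open Pool.Agent.H.MP_93dabc_an in
  refine ⟨W, cc W, ccm W, ccm_prob W, ccm_complete W, L1, inferInstance, inferInstance,
    inferInstance, FF, fun t => ⟨FF_ne t, FF_convex t, FF_closed t, FF_bdd t⟩,
    fun φ _ a => FF_meas _, fun f hf h => ?_⟩
  obtain ⟨φ, hφ⟩ := Pool.Agent.H.MP_93dabc_an.no_selector f hf
  exact hφ (h φ)

end Pool.Agent.Results.MP_93dabc_an.No
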